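import Mathlib
import Pool.Agent.H84.SnC

namespace Pool.Agent.Results.MP_085bfa_gt.Yes

open Pool.Agent.H84.SnDefs Pool.Agent.H84.SnC

universe u

theorem result :
    (∀ (n : ℕ) (X : Type u) [τ : TopologicalSpace X] [TopologicalSpace.SeparableSpace X]
      [TopologicalSpace.MetrizableSpace X], DimEq X n →
        Sn SM0 τ ≤ (((n + 1 : ℕ) : Cardinal.{u}) : WithTop Cardinal.{u})) ∧
    ∀ n : ℕ, Sn SM0 (inferInstance : TopologicalSpace (EuclideanSpace ℝ (Fin n))) ≤
      (((n + 1 : ℕ) : Cardinal.{0}) : WithTop Cardinal.{0}) :=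
  ⟨fun _ _ _ _ _ h => have := h.1; sn_le (rep_of_dim h.2.1), fun n => sn_le (rep_euclid n)⟩

end Pool.Agent.Results.MP_085bfa_gt.Yes
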